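import Pool.Agent.Y969.SM.Stm2

/-!
# Bounds for the local sums

Part SX-LSM of the project SX (problems MP_39df77_nt, MP_56b8f5_nt).
-/

set_option autoImplicit false

namespace Pool.Agent.Y686.SX

open Finset Pool.Agent.Y969.SM

lemma summable_int {r : ℝ} (h0 : 0 ≤ r) (h1 : r < 1) :
    Summable fun m : ℤ => r ^ m.natAbs := by
  refine Summable.of_nat_of_neg ?_ ?_
  · simpa using summable_geometric_of_lt_one h0 h1
  · simpa using summable_geometric_of_lt_one h0 h1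

lemma summable_pi {r : ℝ} (h0 : 0 ≤ r) (h1 : r < 1) (n : ℕ) :
    Summable fun k : Fin n → ℤ => r ^ (∑ j, (k j).natAbs) := by
  induction n with
  | zero => exact Summable.of_finite
  | succ n ih =>
    rw [← (Fin.consEquiv (fun _ : Fin (n + 1) => ℤ)).summable_iff]
    have h2 := Summable.mul_of_nonneg (summable_int h0 h1) ih (fun _ => pow_nonneg h0 _)
      (fun _ => pow_nonneg h0 _)
    refine h2.congr fun x => ?_
    show r ^ x.1.natAbs * r ^ (∑ j, (x.2 j).natAbs) = r ^ (∑ j, ((Fin.cons x.1 x.2 : Fin (n + 1) → ℤ) j).natAbs)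
    rw [Fin.sum_univ_succ, pow_add]
    simp

lemma sq_le (K : ℕ) : (1 + K) ^ 2 ≤ 4 * 2 ^ K := by
  induction K with
  | zero => norm_num
  | succ K ih =>
    rcases Nat.lt_or_ge K 2 with h | h
    · interval_cases K <;> norm_num
    · have h2 : 2 ^ (K + 1) = 2 * 2 ^ K := pow_succ' 2 K
      rw [h2]
      nlinarith

lemma one_add_le (K : ℕ) : (1 + (K : ℝ)) * (2 : ℝ) ^ (-((K : ℝ) / 2)) ≤ 2 := by
  have h1 : (1 + (K : ℝ)) ^ 2 ≤ 4 * 2 ^ K := by exact_mod_cast sq_le K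
  have h2 : (2 : ℝ) ^ (-((K : ℝ) / 2)) * (2 : ℝ) ^ (-((K : ℝ) / 2)) * 2 ^ K = 1 := by
    rw [← Real.rpow_natCast, ← Real.rpow_add two_pos, ← Real.rpow_add two_pos]
    have h4 : -((K : ℝ) / 2) + -((K : ℝ) / 2) + (K : ℝ) = 0 := by ring
    rw [h4, Real.rpow_zero]
  have h3 : (0 : ℝ) < (2 : ℝ) ^ (-((K : ℝ) / 2)) := by positivity
  refine le_of_sq_le_sq ?_ (by norm_num)
  rw [mul_pow]
  calc (1 + (K : ℝ)) ^ 2 * ((2 : ℝ) ^ (-((K : ℝ) / 2))) ^ 2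
      ≤ (4 * 2 ^ K) * ((2 : ℝ) ^ (-((K : ℝ) / 2))) ^ 2 := by gcongr
    _ = 4 * ((2 : ℝ) ^ (-((K : ℝ) / 2)) * (2 : ℝ) ^ (-((K : ℝ) / 2)) * 2 ^ K) := by ring
    _ = 2 ^ 2 := by rw [h2]; norm_num

lemma parity {n : ℕ} (k : Fin n → ℤ) : (∑ j, (k j).natAbs) % 2 = (∑ j, k j).natAbs % 2 := by
  have h1 : ∀ m : ℤ, (m.natAbs : ZMod 2) = (m : ZMod 2) := by
    intro m
    rcases Int.natAbs_eq m with h | h
    · conv_rhs => rw [h]
      simp
    · conv_rhs => rw [h]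
      rw [Int.cast_neg, Int.cast_natCast, ZMod.neg_eq_self_mod_two]
  have h2 : ((∑ j, (k j).natAbs : ℕ) : ZMod 2) = (((∑ j, k j).natAbs : ℕ) : ZMod 2) := by
    rw [h1]
    push_cast
    exact sum_congr rfl fun j _ => h1 (k j)
  exact (ZMod.natCast_eq_natCast_iff _ _ 2).1 h2

theorem t_LSM : S_LSM := by
  intro n
  set r : ℝ := (2 : ℝ) ^ (-(1 / 4) : ℝ) with hr
  have hr0 : 0 < r := by positivity
  have hr1 : r < 1 := Real.rpow_lt_one_of_one_lt_of_neg (by norm_num) (by norm_num)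
  have hG := summable_pi hr0.le hr1 n
  set G : (Fin n → ℤ) → ℝ := fun k => r ^ (∑ j, (k j).natAbs) with hGdef
  have hG0 : ∀ k, 0 ≤ G k := fun k => pow_nonneg hr0.le _
  have hGr : ∀ k : Fin n → ℤ, G k = (2 : ℝ) ^ (-((∑ j, (k j).natAbs : ℕ) : ℝ) / 4) := by
    intro k
    show r ^ (∑ j, (k j).natAbs) = _
    rw [hr, ← Real.rpow_natCast, ← Real.rpow_mul (by norm_num)]
    congr 1
    ring
  have hGs : 0 ≤ ∑' k, G k := tsum_nonneg hG0
  refine ⟨4 * ∑' k, G k + 1, by linarith, ?_⟩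
  intro p hp
  have hp2 : (2 : ℝ) ≤ p := by exact_mod_cast hp.two_le
  have hp0 : (0 : ℝ) < p := by linarith
  set t : (Fin n → ℤ) → ℝ := fun k => lc p k * (p : ℝ) ^ ((1 / 4 : ℝ) * ∑ j, ((k j).natAbs : ℝ))
    with ht
  have hfrac : 0 ≤ ((p : ℝ) - 1) / ((p : ℝ) + 1) := div_nonneg (by linarith) (by linarith)
  have hfrac1 : ((p : ℝ) - 1) / ((p : ℝ) + 1) ≤ 1 := by
    rw [div_le_one (by linarith)]
    linarith
  have ht0 : ∀ k, 0 ≤ t k := by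
    intro k
    show 0 ≤ (p : ℝ) ^ (-((kx k : ℝ) / 2)) * (1 + ((∑ j, k j).natAbs : ℝ) *
      (((p:ℝ) - 1) / ((p:ℝ) + 1))) * (p : ℝ) ^ ((1 / 4 : ℝ) * ∑ j, ((k j).natAbs : ℝ))
    have : (0 : ℝ) ≤ ((∑ j, k j).natAbs : ℝ) := Nat.cast_nonneg _
    positivity
  -- the bound for nonzero `k`
  have hb : ∀ k : Fin n → ℤ, k ≠ 0 → t k ≤ 4 * (p : ℝ) ^ (-(1 / 2) : ℝ) * G k := by
    intro k hk
    set s : ℕ := ∑ j, (k j).natAbs with hs
    set K : ℕ := (∑ j, k j).natAbs with hK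
    have hcast : (∑ j, ((k j).natAbs : ℝ)) = (s : ℝ) := by
      rw [hs]; push_cast; rfl
    have hs1 : 1 ≤ s := by
      by_contra hcon
      have h1 : s = 0 := by omega
      apply hk
      funext j
      have h2 : (k j).natAbs ≤ s := single_le_sum (f := fun j => (k j).natAbs)
        (fun _ _ => Nat.zero_le _) (mem_univ j)
      have h3 : (k j).natAbs = 0 := by omega
      exact Int.natAbs_eq_zero.1 h3
    have hpar : s % 2 = K % 2 := parity k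
    have hx : (1 / 2 : ℝ) ≤ (s : ℝ) / 4 + (K : ℝ) / 2 := by
      rcases Nat.lt_or_ge s 2 with h | h
      · have h1 : 1 ≤ K := by omega
        have h2 : (1 : ℝ) ≤ K := by exact_mod_cast h1
        have h3 : (0 : ℝ) ≤ s := Nat.cast_nonneg s
        linarith
      · have h2 : (2 : ℝ) ≤ s := by exact_mod_cast h
        have h3 : (0 : ℝ) ≤ K := Nat.cast_nonneg K
        linarith
    have hK0 : (0 : ℝ) ≤ K := Nat.cast_nonneg K
    have e1 : t k = (1 + (K : ℝ) * (((p:ℝ) - 1) / ((p:ℝ) + 1))) *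
        (p : ℝ) ^ (-((s : ℝ) / 4 + (K : ℝ) / 2)) := by
      show (p : ℝ) ^ (-((kx k : ℝ) / 2)) * (1 + (K : ℝ) *
        (((p:ℝ) - 1) / ((p:ℝ) + 1))) * (p : ℝ) ^ ((1 / 4 : ℝ) * ∑ j, ((k j).natAbs : ℝ)) = _
      have e2 : (kx k : ℝ) = s + K := by
        have : kx k = s + K := rfl
        rw [this]
        push_cast
        ring
      rw [e2, hcast]
      have e3 : (p : ℝ) ^ (-((s : ℝ) / 4 + (K : ℝ) / 2)) =
          (p : ℝ) ^ (-(((s : ℝ) + K) / 2)) * (p : ℝ) ^ ((1 / 4 : ℝ) * (s : ℝ)) := by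
        rw [← Real.rpow_add hp0]
        congr 1
        ring
      rw [e3]
      ring
    have e4 : (p : ℝ) ^ (-((s : ℝ) / 4 + (K : ℝ) / 2)) ≤
        (p : ℝ) ^ (-(1 / 2) : ℝ) * (2 * ((2 : ℝ) ^ (-((K : ℝ) / 2)) * G k)) := by
      have e5 : (p : ℝ) ^ (-((s : ℝ) / 4 + (K : ℝ) / 2)) =
          (p : ℝ) ^ (-(1 / 2) : ℝ) * (p : ℝ) ^ (-((s : ℝ) / 4 + (K : ℝ) / 2 - 1 / 2)) := by
        rw [← Real.rpow_add hp0]
        congr 1
        ring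
      rw [e5]
      refine mul_le_mul_of_nonneg_left ?_ (by positivity)
      calc (p : ℝ) ^ (-((s : ℝ) / 4 + (K : ℝ) / 2 - 1 / 2))
          ≤ (2 : ℝ) ^ (-((s : ℝ) / 4 + (K : ℝ) / 2 - 1 / 2)) :=
            Real.rpow_le_rpow_of_nonpos (by norm_num) hp2 (by linarith)
        _ = (2 : ℝ) ^ (1 / 2 : ℝ) * ((2 : ℝ) ^ (-((K : ℝ) / 2)) * G k) := by
            rw [hGr, ← Real.rpow_add two_pos, ← Real.rpow_add two_pos]
            congr 1
            ring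
        _ ≤ 2 * ((2 : ℝ) ^ (-((K : ℝ) / 2)) * G k) := by
            have e6 : (2 : ℝ) ^ (1 / 2 : ℝ) ≤ (2 : ℝ) ^ (1 : ℝ) :=
              Real.rpow_le_rpow_of_exponent_le (by norm_num) (by norm_num)
            rw [Real.rpow_one] at e6
            have := hG0 k
            gcongr
    rw [e1]
    have e7 : 1 + (K : ℝ) * (((p:ℝ) - 1) / ((p:ℝ) + 1)) ≤ 1 + K := by nlinarith
    have e8 := one_add_le K
    have e9 : 0 ≤ (p : ℝ) ^ (-(1 / 2) : ℝ) := by positivity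
    calc (1 + (K : ℝ) * (((p:ℝ) - 1) / ((p:ℝ) + 1))) * (p : ℝ) ^ (-((s : ℝ) / 4 + (K : ℝ) / 2))
        ≤ (1 + K) * ((p : ℝ) ^ (-(1 / 2) : ℝ) * (2 * ((2 : ℝ) ^ (-((K : ℝ) / 2)) * G k))) :=
          mul_le_mul e7 e4 (by positivity) (by positivity)
      _ = ((1 + K) * (2 : ℝ) ^ (-((K : ℝ) / 2))) * (2 * (p : ℝ) ^ (-(1 / 2) : ℝ) * G k) := by ring
      _ ≤ 2 * (2 * (p : ℝ) ^ (-(1 / 2) : ℝ) * G k) :=
          mul_le_mul_of_nonneg_right e8 (by have := hG0 k; positivity)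
      _ = 4 * (p : ℝ) ^ (-(1 / 2) : ℝ) * G k := by ring
  have hz : t 0 = 1 := by
    show (p : ℝ) ^ (-((kx (0 : Fin n → ℤ) : ℝ) / 2)) * (1 + ((∑ j, (0 : Fin n → ℤ) j).natAbs : ℝ) *
      (((p:ℝ) - 1) / ((p:ℝ) + 1))) * (p : ℝ) ^ ((1 / 4 : ℝ) * ∑ j, (((0 : Fin n → ℤ) j).natAbs : ℝ)) = 1
    simp [kx]
  have hle : ∀ k, t k ≤ (Pi.single (0 : Fin n → ℤ) (1 : ℝ) : (Fin n → ℤ) → ℝ) k +
      4 * (p : ℝ) ^ (-(1 / 2) : ℝ) * G k := by
    intro k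
    by_cases hk : k = 0
    · rw [hk, hz, Pi.single_eq_same]
      have := hG0 0
      have h1 : 0 ≤ 4 * (p : ℝ) ^ (-(1 / 2) : ℝ) * G 0 := by positivity
      linarith
    · rw [Pi.single_eq_of_ne hk, zero_add]
      exact hb k hk
  have hs1 : HasSum (Pi.single (0 : Fin n → ℤ) (1 : ℝ) : (Fin n → ℤ) → ℝ) 1 :=
    hasSum_pi_single (0 : Fin n → ℤ) (1 : ℝ)
  have hs2 : Summable fun k => 4 * (p : ℝ) ^ (-(1 / 2) : ℝ) * G k := hG.mul_left _
  have hs3 := hs1.summable.add hs2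
  have hts : Summable t := Summable.of_nonneg_of_le ht0 hle hs3
  refine ⟨hts, ?_⟩
  calc ∑' k, t k ≤ ∑' k, ((Pi.single (0 : Fin n → ℤ) (1 : ℝ) : (Fin n → ℤ) → ℝ) k +
        4 * (p : ℝ) ^ (-(1 / 2) : ℝ) * G k) := hts.tsum_le_tsum hle hs3
    _ = 1 + 4 * (p : ℝ) ^ (-(1 / 2) : ℝ) * ∑' k, G k := by
        rw [hs1.summable.tsum_add hs2, hs1.tsum_eq, tsum_mul_left]
    _ ≤ 1 + (4 * ∑' k, G k + 1) * (p : ℝ) ^ (-(1 / 2) : ℝ) := by
        have : 0 ≤ (p : ℝ) ^ (-(1 / 2) : ℝ) := by positivity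
        nlinarith

end Pool.Agent.Y686.SX
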